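import Pool.Agent.Lib.MP_b91f88_nt.Defs

/-! # leaf: the congruence modulo `24` -/

set_option autoImplicit false

namespace CoprimeSquares

private theorem cong_one : ∀ y : ZMod 24, y.val % 2 ≠ 0 → y.val % 3 ≠ 0 → y ^ 2 - 1 = 0 := by
  decide

private theorem cong_single : ∀ y : ZMod 24, ∃ s ∈ ({0, 3, 8, 11, 15, 23} : Finset ℕ),
    y ^ 2 - 1 = (s : ZMod 24) := by
  decide

private theorem cong_pair : ∀ y z : ZMod 24, y.val % 2 = 0 → y.val % 3 ≠ 0 → z.val % 3 = 0 →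
    z.val % 2 ≠ 0 → ∃ s ∈ ({0, 3, 8, 11, 15, 23} : Finset ℕ),
    (y ^ 2 - 1) + (z ^ 2 - 1) = (s : ZMod 24) := by
  decide +kernel

private theorem cong_val (x : ℕ) : (x : ZMod 24).val % 2 = x % 2 ∧ (x : ZMod 24).val % 3 = x % 3 := by
  rw [ZMod.val_natCast]
  omega

private theorem cong_cop {a b q : ℕ} (h : Nat.Coprime a b) (hq : 1 < q) (ha : a % q = 0) :
    b % q ≠ 0 := by
  intro hb
  have h1 := Nat.dvd_gcd (Nat.dvd_of_mod_eq_zero ha) (Nat.dvd_of_mod_eq_zero hb)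
  rw [Nat.Coprime] at h
  rw [h] at h1
  have := Nat.le_of_dvd one_pos h1
  omega

theorem cong {n m : ℕ} (h : IsSum n m) :
    ∃ s ∈ ({0, 3, 8, 11, 15, 23} : Finset ℕ), n % 24 = (m + s) % 24 := by
  obtain ⟨x, hpos, hcop, hsum⟩ := h
  suffices hs : ∃ s ∈ ({0, 3, 8, 11, 15, 23} : Finset ℕ),
      ∑ i, ((x i : ZMod 24) ^ 2 - 1) = (s : ZMod 24) by
    obtain ⟨s, hs1, hs2⟩ := hs
    refine ⟨s, hs1, ?_⟩
    rw [← ZMod.natCast_eq_natCast_iff']
    rw [← hsum]
    push_cast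
    rw [← hs2, Finset.sum_sub_distrib]
    simp
  have hz : ∀ i, x i % 2 ≠ 0 → x i % 3 ≠ 0 → ((x i : ZMod 24) ^ 2 - 1) = 0 := by
    intro i h2 h3
    apply cong_one
    · rw [(cong_val _).1]; exact h2
    · rw [(cong_val _).2]; exact h3
  by_cases h2 : ∃ i, x i % 2 = 0
  · obtain ⟨i, hi⟩ := h2
    have hi2 : ∀ j, j ≠ i → x j % 2 ≠ 0 := fun j hj => cong_cop (hcop i j (Ne.symm hj)) (by omega) hi
    by_cases h3 : ∃ j, x j % 3 = 0
    · obtain ⟨j, hj⟩ := h3
      have hj3 : ∀ l, l ≠ j → x l % 3 ≠ 0 := fun l hl =>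
        cong_cop (hcop j l (Ne.symm hl)) (by omega) hj
      by_cases hij : i = j
      · subst hij
        rw [Finset.sum_eq_single i (fun l _ hl => hz l (hi2 l hl) (hj3 l hl))
          (fun hn => absurd (Finset.mem_univ _) hn)]
        exact cong_single _
      · rw [Finset.sum_eq_add i j hij (fun l _ hl => hz l (hi2 l hl.1) (hj3 l hl.2))
          (fun hn => absurd (Finset.mem_univ _) hn) (fun hn => absurd (Finset.mem_univ _) hn)]
        apply cong_pair
        · rw [(cong_val _).1]; exact hi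
        · rw [(cong_val _).2]; exact hj3 i hij
        · rw [(cong_val _).2]; exact hj
        · rw [(cong_val _).1]; exact hi2 j (Ne.symm hij)
    · have h3' : ∀ l, x l % 3 ≠ 0 := fun l hl => h3 ⟨l, hl⟩
      rw [Finset.sum_eq_single i (fun l _ hl => hz l (hi2 l hl) (h3' l))
        (fun hn => absurd (Finset.mem_univ _) hn)]
      exact cong_single _
  · have h2' : ∀ l, x l % 2 ≠ 0 := fun l hl => h2 ⟨l, hl⟩
    by_cases h3 : ∃ j, x j % 3 = 0
    · obtain ⟨j, hj⟩ := h3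
      have hj3 : ∀ l, l ≠ j → x l % 3 ≠ 0 := fun l hl =>
        cong_cop (hcop j l (Ne.symm hl)) (by omega) hj
      rw [Finset.sum_eq_single j (fun l _ hl => hz l (h2' l) (hj3 l hl))
        (fun hn => absurd (Finset.mem_univ _) hn)]
      exact cong_single _
    · have h3' : ∀ l, x l % 3 ≠ 0 := fun l hl => h3 ⟨l, hl⟩
      refine ⟨0, by decide, ?_⟩
      rw [Finset.sum_eq_zero (fun l _ => hz l (h2' l) (h3' l))]
      simp

end CoprimeSquares
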