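import Mathlib

/-!
# MP_b91f88_nt: sums of squares of pairwise coprime positive integers
-/

set_option autoImplicit false

namespace CoprimeSquares

/-- `n` is a sum of the squares of `m` pairwise coprime positive integers. -/
def IsSum (n m : ℕ) : Prop :=
  ∃ x : Fin m → ℕ, (∀ i, 0 < x i) ∧ (∀ i j, i ≠ j → Nat.Coprime (x i) (x j)) ∧
    ∑ i, x i ^ 2 = n

/-- the least number `m ≥ 1` of terms -/
noncomputable def g (n : ℕ) : ℕ := sInf {m | 1 ≤ m ∧ IsSum n m}

/-- the lower bound, for the residue class `c` modulo `24` -/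
def lb (c : ℕ) : ℕ :=
  [9, 10, 3, 3, 4, 5, 3, 4, 5, 6, 7, 3, 4, 5, 3, 4, 5, 6, 3, 4, 5, 6, 7, 8].getD c 0

end CoprimeSquares
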