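import Pool.Agent.Lib.MP_b91f88_nt.Recip

/-! # leaf: almost all integers have a prime factor `p ≡ 3 mod 4` -/

set_option autoImplicit false

namespace CoprimeSquares

private theorem totient_prod_primes (P : Finset ℕ) (hP : ∀ p ∈ P, p.Prime) :
    (∏ p ∈ P, p).totient = ∏ p ∈ P, (p - 1) := by
  classical
  induction P using Finset.induction_on with
  | empty => simp
  | insert a s ha ih =>
    have h1 : ∀ p ∈ s, p.Prime := fun p hp => hP p (Finset.mem_insert_of_mem hp)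
    have h2 : a.Prime := hP a (Finset.mem_insert_self _ _)
    rw [Finset.prod_insert ha, Finset.prod_insert ha, Nat.totient_mul, ih h1,
      Nat.totient_prime h2]
    refine Nat.Coprime.prod_right fun p hp => ?_
    exact (Nat.coprime_primes h2 (h1 p hp)).2 fun h => ha (h ▸ hp)

theorem exists_modulus {ε : ℝ} (hε : 0 < ε) : ∃ M : ℕ, 0 < M ∧
    (∀ n : ℕ, 0 < n → ¬ M.Coprime n → ∃ p, p.Prime ∧ p % 4 = 3 ∧ p ∣ n) ∧
    (M.totient : ℝ) ≤ ε * M := by
  obtain ⟨P, hP, hC⟩ := exists_primes (-Real.log ε)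
  have hpos : 0 < ∏ p ∈ P, p := Finset.prod_pos fun p hp => (hP p hp).1.pos
  refine ⟨∏ p ∈ P, p, hpos, ?_, ?_⟩
  · intro n _ hn
    obtain ⟨p, hp, h1, h2⟩ := Nat.Prime.not_coprime_iff_dvd.1 hn
    obtain ⟨q, hq, h3⟩ := (hp.prime.dvd_finsetProd_iff _).1 h1
    have h4 : p = q := (Nat.prime_dvd_prime_iff_eq hp (hP q hq).1).1 h3
    exact ⟨p, hp, by rw [h4]; exact (hP q hq).2, h2⟩
  · rw [totient_prod_primes P fun p hp => (hP p hp).1]
    have e1 : ((∏ p ∈ P, (p - 1) : ℕ) : ℝ) = (∏ p ∈ P, (1 - (1 : ℝ) / p)) * ((∏ p ∈ P, p : ℕ) : ℝ) := by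
      rw [Nat.cast_prod, Nat.cast_prod, ← Finset.prod_mul_distrib]
      refine Finset.prod_congr rfl fun p hp => ?_
      have h1 : 0 < p := (hP p hp).1.pos
      have h2 : (p : ℝ) ≠ 0 := by exact_mod_cast h1.ne'
      rw [Nat.cast_sub h1, Nat.cast_one, sub_mul, one_mul, one_div, inv_mul_cancel₀ h2]
    rw [e1]
    refine mul_le_mul_of_nonneg_right ?_ (Nat.cast_nonneg _)
    calc ∏ p ∈ P, (1 - (1 : ℝ) / p) ≤ ∏ p ∈ P, Real.exp (-((1 : ℝ) / p)) := by
          refine Finset.prod_le_prod (fun p hp => ?_) fun p hp => ?_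
          · have h1 : (1 : ℝ) ≤ p := by exact_mod_cast (hP p hp).1.one_lt.le
            rw [sub_nonneg, div_le_one (by linarith)]
            exact h1
          · exact Real.one_sub_le_exp_neg _
      _ = Real.exp (-∑ p ∈ P, (1 : ℝ) / p) := by
          rw [← Real.exp_sum, Finset.sum_neg_distrib]
      _ ≤ Real.exp (Real.log ε) := Real.exp_le_exp.2 (by linarith)
      _ = ε := Real.exp_log hε

theorem count {ε : ℝ} (hε : 0 < ε) : ∃ N₀ : ℕ, ∀ N : ℕ, N₀ ≤ N → ∀ S : Finset ℕ,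
    S ⊆ Finset.Icc 1 N → (∀ n ∈ S, ∀ p, p.Prime → p % 4 = 3 → ¬ p ∣ n) →
    (S.card : ℝ) ≤ ε * N := by
  classical
  obtain ⟨M, hM, h1, h2⟩ := exists_modulus (half_pos hε)
  obtain ⟨N₀, hN₀⟩ := exists_nat_ge ((M : ℝ) / (ε / 2))
  refine ⟨N₀, fun N hN S hS hS2 => ?_⟩
  have h3 : S ⊆ (Finset.Ico 1 (1 + N)).filter (fun x => M.Coprime x) := by
    intro n hn
    have h4 := Finset.mem_Icc.1 (hS hn)
    rw [Finset.mem_filter, Finset.mem_Ico]
    refine ⟨⟨h4.1, by omega⟩, ?_⟩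
    by_contra hc
    obtain ⟨p, hp, hp3, hpn⟩ := h1 n (by omega) hc
    exact hS2 n hn p hp hp3 hpn
  have h4 : S.card ≤ M.totient * (N / M + 1) :=
    (Finset.card_le_card h3).trans (Nat.Ico_filter_coprime_le 1 N hM.ne')
  have hM' : (0 : ℝ) < M := by exact_mod_cast hM
  have h5 : (S.card : ℝ) ≤ (M.totient : ℝ) * (((N / M : ℕ) : ℝ) + 1) := by exact_mod_cast h4
  have h6 : ((N / M : ℕ) : ℝ) ≤ (N : ℝ) / M := Nat.cast_div_le
  have h7 : (M.totient : ℝ) ≤ M := by exact_mod_cast Nat.totient_le M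
  have h8 : (M : ℝ) ≤ ε / 2 * N := by
    have h9 : (M : ℝ) / (ε / 2) ≤ N := hN₀.trans (by exact_mod_cast hN)
    rw [div_le_iff₀ (half_pos hε)] at h9
    linarith
  have h10 : (M.totient : ℝ) * ((N : ℝ) / M) ≤ ε / 2 * N := by
    calc (M.totient : ℝ) * ((N : ℝ) / M) ≤ (ε / 2 * M) * ((N : ℝ) / M) :=
          mul_le_mul_of_nonneg_right h2 (by positivity)
      _ = ε / 2 * N := by
          field_simp
  have h11 : (M.totient : ℝ) * ((N / M : ℕ) : ℝ) ≤ (M.totient : ℝ) * ((N : ℝ) / M) :=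
    mul_le_mul_of_nonneg_left h6 (Nat.cast_nonneg _)
  calc (S.card : ℝ) ≤ (M.totient : ℝ) * (((N / M : ℕ) : ℝ) + 1) := h5
    _ = (M.totient : ℝ) * ((N / M : ℕ) : ℝ) + M.totient := by ring
    _ ≤ ε * N := by linarith

end CoprimeSquares
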