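import Pool.Agent.Lib.MP_b91f88_nt.Cong
import Pool.Agent.Lib.MP_b91f88_nt.Sieve

/-!
# MP_b91f88_nt: lower bounds for the number of coprime squares
-/

set_option autoImplicit false

namespace CoprimeSquares

theorem isSum_self (n : ℕ) : IsSum n n :=
  ⟨fun _ => 1, fun _ => one_pos, fun _ _ _ => Nat.coprime_one_left 1, by simp⟩

theorem g_spec {n : ℕ} (hn : 0 < n) : 1 ≤ g n ∧ IsSum n (g n) :=
  Nat.sInf_mem (s := {m | 1 ≤ m ∧ IsSum n m}) ⟨n, hn, isSum_self n⟩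

theorem lb_le {n : ℕ} (hn : 0 < n) (h1 : ¬ IsSum n 1) (h2 : ¬ IsSum n 2) :
    lb (n % 24) ≤ g n := by
  obtain ⟨ha, hb⟩ := g_spec hn
  obtain ⟨s, hs, hc⟩ := cong hb
  have h3 : 3 ≤ g n := by
    by_contra hlt
    have : g n = 1 ∨ g n = 2 := by omega
    rcases this with h | h
    · exact h1 (h ▸ hb)
    · exact h2 (h ▸ hb)
  have key : ∀ m ∈ Finset.Ico 3 10, ∀ s ∈ ({0, 3, 8, 11, 15, 23} : Finset ℕ),
      lb ((m + s) % 24) ≤ m := by decide
  have key2 : ∀ c ∈ Finset.range 24, lb c ≤ 10 := by decide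
  rcases lt_or_ge (g n) 10 with h | h
  · rw [hc]; exact key _ (Finset.mem_Ico.2 ⟨h3, h⟩) s hs
  · exact (key2 _ (Finset.mem_range.2 (Nat.mod_lt _ (by norm_num)))).trans h

theorem two {n : ℕ} (h : n % 24 = 2) : g n ≤ 3 ∨ 11 ≤ g n := by
  have hn : 0 < n := by omega
  obtain ⟨ha, hb⟩ := g_spec hn
  obtain ⟨s, hs, hc⟩ := cong hb
  have key : ∀ m ∈ Finset.Ico 4 11, ∀ s ∈ ({0, 3, 8, 11, 15, 23} : Finset ℕ),
      (m + s) % 24 ≠ 2 := by decide
  by_contra hcon
  push Not at hcon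
  exact key (g n) (Finset.mem_Ico.2 ⟨by omega, by omega⟩) s hs (by omega)

theorem three {n : ℕ} (h : n % 24 = 3) : g n ≤ 4 ∨ 12 ≤ g n := by
  have hn : 0 < n := by omega
  obtain ⟨ha, hb⟩ := g_spec hn
  obtain ⟨s, hs, hc⟩ := cong hb
  have key : ∀ m ∈ Finset.Ico 5 12, ∀ s ∈ ({0, 3, 8, 11, 15, 23} : Finset ℕ),
      (m + s) % 24 ≠ 3 := by decide
  by_contra hcon
  push Not at hcon
  exact key (g n) (Finset.mem_Ico.2 ⟨by omega, by omega⟩) s hs (by omega)

theorem not_dvd_of_isSum_two {n p : ℕ} (h : IsSum n 2) (hp : p.Prime) (hp3 : p % 4 = 3) :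
    ¬ p ∣ n := by
  obtain ⟨x, hx, hc, hn⟩ := h
  intro hpn
  have h1 : n = x 0 ^ 2 + x 1 ^ 2 := by rw [← hn, Fin.sum_univ_two]
  have h2 := ZMod.isSquare_neg_one_of_eq_sq_add_sq_of_coprime h1 (hc 0 1 (by decide))
  have h0 : n ≠ 0 := by
    have := hx 0
    rw [h1]; positivity
  exact Nat.mod_four_ne_three_of_mem_primeFactors_of_isSquare_neg_one
    (Nat.mem_primeFactors.2 ⟨hp, hpn, h0⟩) h2 hp3

theorem few {ε : ℝ} (hε : 0 < ε) : ∃ N₀ : ℕ, ∀ N : ℕ, N₀ ≤ N →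
    (((Finset.Icc 1 N).filter fun n => g n < lb (n % 24)).card : ℝ) ≤ ε * N := by
  classical
  obtain ⟨N₁, hN₁⟩ := count (half_pos hε)
  refine ⟨max N₁ (Nat.ceil (4 / ε ^ 2)), fun N hN => ?_⟩
  have hN1 : N₁ ≤ N := (le_max_left _ _).trans hN
  have hN2 : (4 / ε ^ 2 : ℝ) ≤ N :=
    (Nat.le_ceil _).trans (by exact_mod_cast (le_max_right _ _).trans hN)
  set A := (Finset.Icc 1 N).filter fun n => g n < lb (n % 24) with hA
  set B := (Finset.Icc 1 (Nat.sqrt N)).image fun x => x ^ 2 with hB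
  set C := A.filter fun n => IsSum n 2 with hC
  have h1 : A ⊆ B ∪ C := by
    intro n hn
    have hn' := (Finset.mem_filter.1 hn)
    have hn1 := Finset.mem_Icc.1 hn'.1
    by_cases h1 : IsSum n 1
    · obtain ⟨x, hx, -, hs⟩ := h1
      refine Finset.mem_union_left _ (Finset.mem_image.2 ⟨x 0, Finset.mem_Icc.2 ⟨hx 0, ?_⟩, ?_⟩)
      · rw [Nat.le_sqrt', ← Fin.sum_univ_one (fun i => x i ^ 2), hs]
        exact hn1.2
      · rw [← hs, Fin.sum_univ_one]
    · by_cases h2 : IsSum n 2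
      · exact Finset.mem_union_right _ (Finset.mem_filter.2 ⟨hn, h2⟩)
      · exact absurd (lb_le hn1.1 h1 h2) (not_le.2 hn'.2)
  have h2 : A.card ≤ Nat.sqrt N + C.card := by
    refine (Finset.card_le_card h1).trans ((Finset.card_union_le _ _).trans ?_)
    have h3 : B.card ≤ Nat.sqrt N := by
      refine Finset.card_image_le.trans ?_
      rw [Nat.card_Icc]; omega
    omega
  have h3 : (C.card : ℝ) ≤ ε / 2 * N := by
    refine hN₁ N hN1 C (fun n hn => ?_) fun n hn p hp hp3 => ?_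
    · exact (Finset.mem_filter.1 (Finset.mem_filter.1 hn).1).1
    · exact not_dvd_of_isSum_two (Finset.mem_filter.1 hn).2 hp hp3
  have h4 : (Nat.sqrt N : ℝ) ≤ ε / 2 * N := by
    have h5 : (Nat.sqrt N : ℝ) * Nat.sqrt N ≤ N := by exact_mod_cast Nat.sqrt_le N
    rcases le_or_gt (2 / ε) (Nat.sqrt N : ℝ) with h | h
    · have h6 : 2 ≤ ε * Nat.sqrt N := by
        rw [div_le_iff₀ hε] at h; linarith
      have h7 : (0 : ℝ) ≤ Nat.sqrt N := Nat.cast_nonneg _
      nlinarith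
    · refine h.le.trans ?_
      have h8 : ε / 2 * (4 / ε ^ 2) ≤ ε / 2 * N := mul_le_mul_of_nonneg_left hN2 (by positivity)
      have h9 : ε / 2 * (4 / ε ^ 2) = 2 / ε := by field_simp; norm_num
      linarith
  have h5 : (A.card : ℝ) ≤ Nat.sqrt N + C.card := by exact_mod_cast h2
  linarith

theorem ten {ε : ℝ} (hε : 0 < ε) : ∃ N₀ : ℕ, ∀ N : ℕ, N₀ ≤ N →
    (1 / 24 - ε) * N ≤ (((Finset.Icc 1 N).filter fun n => 10 ≤ g n).card : ℝ) := by
  classical
  obtain ⟨N₀, hN₀⟩ := few hε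
  refine ⟨N₀, fun N hN => ?_⟩
  have h1 := hN₀ N hN
  set A := (Finset.Icc 1 N).filter fun n => g n < lb (n % 24) with hA
  set B := (Finset.Icc 1 N).filter fun n => 10 ≤ g n with hB
  have h2 : (Finset.range ((N + 23) / 24)).image (fun j => 24 * j + 1) ⊆ A ∪ B := by
    intro n hn
    obtain ⟨j, hj, rfl⟩ := Finset.mem_image.1 hn
    have hj' := Finset.mem_range.1 hj
    have hI : 24 * j + 1 ∈ Finset.Icc 1 N := Finset.mem_Icc.2 ⟨by omega, by omega⟩
    by_cases h : g (24 * j + 1) < lb ((24 * j + 1) % 24)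
    · exact Finset.mem_union_left _ (Finset.mem_filter.2 ⟨hI, h⟩)
    · refine Finset.mem_union_right _ (Finset.mem_filter.2 ⟨hI, ?_⟩)
      have h3 : (24 * j + 1) % 24 = 1 := by omega
      rw [h3] at h
      exact not_lt.1 h
  have h3 := (Finset.card_le_card h2).trans (Finset.card_union_le _ _)
  rw [Finset.card_image_of_injective _ (fun a b hab => by simpa using hab),
    Finset.card_range] at h3
  have h4 : (N : ℝ) ≤ 24 * (((N + 23) / 24 : ℕ) : ℝ) := by
    have : N ≤ 24 * ((N + 23) / 24) := by omega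
    exact_mod_cast this
  have h5 : (((N + 23) / 24 : ℕ) : ℝ) ≤ A.card + B.card := by exact_mod_cast h3
  linarith

theorem family (k : ℕ) : g (33 + (420 * k + 52) ^ 2) = 10 := by
  set x : ℕ := 420 * k + 52 with hx
  have hn : 0 < 33 + x ^ 2 := by positivity
  have h24 : (33 + x ^ 2) % 24 = 1 := by
    have : x % 24 = 4 ∨ x % 24 = 16 := by omega
    rcases this with h | h <;> simp [Nat.add_mod, Nat.pow_mod, h]
  have h7 : 7 ∣ 33 + x ^ 2 := by
    have : x % 7 = 3 := by omega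
    rw [Nat.dvd_iff_mod_eq_zero]
    simp [Nat.add_mod, Nat.pow_mod, this]
  have h1 : ¬ IsSum (33 + x ^ 2) 1 := by
    rintro ⟨y, -, -, hy⟩
    rw [Fin.sum_univ_one] at hy
    have ha : x < y 0 := by nlinarith
    nlinarith
  have h2 : ¬ IsSum (33 + x ^ 2) 2 := fun h =>
    not_dvd_of_isSum_two h (by norm_num : Nat.Prime 7) (by norm_num) h7
  have h3 := lb_le hn h1 h2
  rw [h24] at h3
  have h4 : lb 1 = 10 := by decide
  rw [h4] at h3
  have h5 : IsSum (33 + x ^ 2) 10 := by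
    refine ⟨![1, 1, 1, 1, 1, 1, 1, 1, 5, x], ?_, ?_, ?_⟩
    · intro i
      fin_cases i <;> simp [hx]
    · have hc : Nat.Coprime 5 x := by
        rw [Nat.Prime.coprime_iff_not_dvd (by norm_num)]
        omega
      intro i j hij
      fin_cases i <;> fin_cases j <;> simp_all [Nat.coprime_comm] <;> exact hc
    · simp [Fin.sum_univ_succ]
      ring
  exact le_antisymm (Nat.sInf_le ⟨by norm_num, h5⟩) h3

end CoprimeSquares
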