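import Mathlib

/-! # leaf: the sum of `1 / p` over the primes `p ≡ 3 mod 4` diverges -/

set_option autoImplicit false

namespace CoprimeSquares

open ArithmeticFunction ArithmeticFunction.vonMangoldt in
private lemma recip_term (d : ℝ) (hd : 0 < d) (n : ℕ) :
    residueClass (3 : ZMod 4) n / (n : ℝ) ^ (1 + d) ≤
      (if n.Prime then 0 else residueClass (3 : ZMod 4) n) / n +
        (if n.Prime ∧ n % 4 = 3 then (1 : ℝ) / n else 0) * (Real.log n / (n : ℝ) ^ d) := by
  rcases Nat.eq_zero_or_pos n with rfl | hn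
  · simp
  have hn1 : (1 : ℝ) ≤ n := by exact_mod_cast hn
  have hn0 : (0 : ℝ) < n := by linarith
  by_cases hp : n.Prime
  · simp only [hp, if_true, zero_div, zero_add, true_and]
    have hpow : (n : ℝ) ^ (1 + d) = n * (n : ℝ) ^ d := by
      rw [Real.rpow_add hn0, Real.rpow_one]
    by_cases h8 : n % 4 = 3
    · simp only [h8, if_true]
      have h1 : residueClass (3 : ZMod 4) n ≤ Real.log n := by
        unfold residueClass
        refine (Set.indicator_le_self' (fun _ _ => vonMangoldt_nonneg) n).trans ?_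
        rw [vonMangoldt_apply_prime hp]
      calc residueClass (3 : ZMod 4) n / (n : ℝ) ^ (1 + d) ≤ Real.log n / (n : ℝ) ^ (1 + d) :=
            div_le_div_of_nonneg_right h1 (by positivity)
        _ = _ := by
            rw [hpow]
            have : (n : ℝ) ^ d ≠ 0 := by positivity
            field_simp
    · simp only [h8, if_false, zero_mul]
      have h0 : residueClass (3 : ZMod 4) n = 0 := by
        unfold residueClass
        rw [Set.indicator_of_notMem]
        intro hmem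
        apply h8
        have h : ((n : ℕ) : ZMod 4) = ((3 : ℕ) : ZMod 4) := by
          simpa using hmem
        rw [ZMod.natCast_eq_natCast_iff'] at h
        simpa using h
      rw [h0, zero_div]
  · simp only [hp, if_false, false_and, zero_mul, add_zero]
    refine div_le_div_of_nonneg_left (residueClass_nonneg _ _) (by positivity) ?_
    calc (n : ℝ) = (n : ℝ) ^ (1 : ℝ) := (Real.rpow_one _).symm
      _ ≤ (n : ℝ) ^ (1 + d) := Real.rpow_le_rpow_of_exponent_le hn1 (by linarith)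

open ArithmeticFunction ArithmeticFunction.vonMangoldt in
private lemma recip_lower : ∃ K : ℝ, 0 ≤ K ∧ ∀ d : ℝ, 0 < d → d ≤ 1 → ∃ N0 : ℕ, ∀ N : ℕ, N0 ≤ N →
    (1 / 2) / d - K ≤ ∑ n ∈ Finset.range N,
      (if n.Prime ∧ n % 4 = 3 then (1 : ℝ) / n else 0) * (Real.log n / (n : ℝ) ^ d) := by
  have hu : IsUnit (3 : ZMod 4) := by decide
  obtain ⟨C0, hC0⟩ := LSeries_residueClass_lower_bound (q := 4) hu
  have hs := summable_residueClass_non_primes_div (3 : ZMod 4)
  have hnn : ∀ n : ℕ, 0 ≤ (if n.Prime then 0 else residueClass (3 : ZMod 4) n) / (n : ℝ) := by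
    intro n
    have := residueClass_nonneg (3 : ZMod 4) n
    split_ifs <;> positivity
  obtain ⟨C1, hC1⟩ : ∃ C1 : ℝ,
    C1 = ∑' n : ℕ, (if n.Prime then 0 else residueClass (3 : ZMod 4) n) / (n : ℝ) := ⟨_, rfl⟩
  have hC1n : 0 ≤ C1 := hC1 ▸ tsum_nonneg hnn
  refine ⟨|C0| + 1 + C1, by positivity, fun d hd hd1 => ?_⟩
  have hx : (1 + d) ∈ Set.Ioc (1 : ℝ) 2 := ⟨by linarith, by linarith⟩
  have hlow := hC0 hx
  have htot : ((Nat.totient 4 : ℕ) : ℝ)⁻¹ = 1 / 2 := by
    have : Nat.totient 4 = 2 := by decide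
    rw [this]; norm_num
  rw [htot] at hlow
  have hsum : Summable fun n : ℕ => residueClass (3 : ZMod 4) n / (n : ℝ) ^ (1 + d) :=
    LSeries.summable_real_of_abscissaOfAbsConv_lt <|
        (abscissaOfAbsConv_residueClass_le_one (3 : ZMod 4)).trans_lt <| mod_cast hx.1
  have htend := hsum.hasSum.tendsto_sum_nat
  have hev := htend.eventually (lt_mem_nhds (show
    (∑' n : ℕ, residueClass (3 : ZMod 4) n / (n : ℝ) ^ (1 + d)) - 1 <
      ∑' n : ℕ, residueClass (3 : ZMod 4) n / (n : ℝ) ^ (1 + d) by linarith))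
  obtain ⟨N0, hN0⟩ := Filter.eventually_atTop.1 hev
  refine ⟨N0, fun N hN => ?_⟩
  have h1 := hN0 N hN
  have h2 := Finset.sum_le_sum (s := Finset.range N) fun n _ => recip_term d hd n
  rw [Finset.sum_add_distrib] at h2
  have h3 : ∑ n ∈ Finset.range N, (if n.Prime then 0 else residueClass (3 : ZMod 4) n) /
      (n : ℝ) ≤ C1 := hC1 ▸ hs.sum_le_tsum _ (fun n _ => hnn n)
  have h4 := le_abs_self C0
  have h5 : 1 + d - 1 = d := by ring
  rw [h5] at hlow
  linarith

theorem exists_primes (C : ℝ) : ∃ P : Finset ℕ, (∀ p ∈ P, p.Prime ∧ p % 4 = 3) ∧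
    C ≤ ∑ p ∈ P, (1 : ℝ) / p := by
  by_contra hcon
  push Not at hcon
  obtain ⟨f, hf⟩ : ∃ f : ℕ → ℝ, f = fun n : ℕ => if n.Prime ∧ n % 4 = 3 then (1 : ℝ) / n else 0 :=
    ⟨_, rfl⟩
  have hf0 : ∀ n, 0 ≤ f n := by
    intro n
    rw [hf]
    simp only
    split_ifs <;> positivity
  have hsum : Summable f := by
    refine summable_of_sum_le hf0 (c := C) fun u => ?_
    have h1 := hcon (u.filter (fun n => n.Prime ∧ n % 4 = 3)) (fun p hp => (Finset.mem_filter.1 hp).2)
    rw [Finset.sum_filter] at h1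
    rw [hf]
    exact h1.le
  obtain ⟨K, hK0, hK⟩ := recip_lower
  -- the tail
  have hev := hsum.hasSum.tendsto_sum_nat.eventually (lt_mem_nhds (show
    (∑' n, f n) - 1 / 8 < ∑' n, f n by linarith))
  obtain ⟨M, hM⟩ := Filter.eventually_atTop.1 hev
  have hM' := hM M le_rfl
  obtain ⟨A, hA⟩ : ∃ A : ℝ, A = ∑ n ∈ Finset.range M, f n * Real.log n := ⟨_, rfl⟩
  have hA0 : 0 ≤ A := by
    rw [hA]
    refine Finset.sum_nonneg fun n _ => mul_nonneg (hf0 n) ?_
    exact Real.log_natCast_nonneg n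
  obtain ⟨d, hd0, hd1, hd⟩ : ∃ d : ℝ, 0 < d ∧ d ≤ 1 ∧ K + A < (3 / 8) / d := by
    refine ⟨1 / (4 * (K + A + 1)), by positivity, ?_, ?_⟩
    · rw [div_le_one (by positivity)]
      linarith
    · rw [lt_div_iff₀ (by positivity), mul_one_div, div_lt_iff₀ (by positivity)]
      linarith
  obtain ⟨N0, hN0⟩ := hK d hd0 hd1
  have h1 := hN0 (max N0 M) (le_max_left _ _)
  have hMN : M ≤ max N0 M := le_max_right _ _
  generalize max N0 M = N at h1 hMN
  have hterm1 : ∀ n : ℕ, f n * (Real.log n / (n : ℝ) ^ d) ≤ f n * Real.log n := by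
    intro n
    refine mul_le_mul_of_nonneg_left ?_ (hf0 n)
    rcases Nat.eq_zero_or_pos n with rfl | hn
    · simp
    · exact div_le_self (Real.log_natCast_nonneg n)
        (Real.one_le_rpow (by exact_mod_cast hn) hd0.le)
  have hterm2 : ∀ n : ℕ, f n * (Real.log n / (n : ℝ) ^ d) ≤ f n * (1 / d) := by
    intro n
    refine mul_le_mul_of_nonneg_left ?_ (hf0 n)
    rcases Nat.eq_zero_or_pos n with rfl | hn
    · simp [hd0.le]
    · have hn0 : (0 : ℝ) < n := by exact_mod_cast hn
      rw [div_le_iff₀ (by positivity)]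
      have := Real.log_le_rpow_div hn0.le hd0
      calc Real.log n ≤ (n : ℝ) ^ d / d := this
        _ = 1 / d * (n : ℝ) ^ d := by ring
  have h2 : ∑ n ∈ Finset.range N, f n * (Real.log n / (n : ℝ) ^ d) ≤ A + (1 / 8) / d := by
    rw [Finset.range_eq_Ico, ← Finset.sum_Ico_consecutive _ (Nat.zero_le M) hMN]
    refine add_le_add ?_ ?_
    · rw [hA, ← Finset.range_eq_Ico]
      exact Finset.sum_le_sum fun n _ => hterm1 n
    · refine (Finset.sum_le_sum fun n _ => hterm2 n).trans ?_
      rw [← Finset.sum_mul]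
      have h3 : ∑ n ∈ Finset.Ico M N, f n ≤ 1 / 8 := by
        have h4 : ∑ n ∈ Finset.range N, f n ≤ ∑' n, f n := hsum.sum_le_tsum _ fun n _ => hf0 n
        rw [Finset.range_eq_Ico, ← Finset.sum_Ico_consecutive _ (Nat.zero_le M) hMN,
          ← Finset.range_eq_Ico] at h4
        linarith
      calc (∑ n ∈ Finset.Ico M N, f n) * (1 / d) ≤ 1 / 8 * (1 / d) :=
            mul_le_mul_of_nonneg_right h3 (by positivity)
        _ = (1 / 8) / d := by ring
  rw [hf] at h2
  have h5 : (1 / 2 : ℝ) / d = (3 / 8) / d + (1 / 8) / d := by ring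
  linarith

end CoprimeSquares
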